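import Pool.Agent.Helper45.HJ.Ring

set_option autoImplicit false

/-!
The degree of the norm of an element of `K[X][Y]/(Y ^ N - f)` when there is one place at infinity.
-/

namespace Pool.Agent.Helper45.HJ

open Polynomial

theorem coeff_det_uniform {R n : Type*} [CommRing R] [Fintype n] [DecidableEq n]
    (B : Matrix n n R[X]) (D : ℕ) (hB : ∀ i j, (B i j).natDegree ≤ D) :
    B.det.coeff (Fintype.card n * D) = (Matrix.of fun i j => (B i j).coeff D).det := by
  rw [Matrix.det_apply, Matrix.det_apply, finsetSum_coeff]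
  refine Finset.sum_congr rfl fun σ _ => ?_
  rw [Units.smul_def, Units.smul_def, coeff_smul]
  congr 1
  rw [← Finset.card_univ, coeff_prod_of_natDegree_le _ _ _ fun i _ => hB _ _]
  rfl

variable {K : Type*} [Field K] {N : ℕ}

/-- the coefficient of the shifted expansion -/
noncomputable def lam (N m W : ℕ) (i : ℕ) (a : K[X]) : K :=
  (X ^ (i * m) * expand K N a).coeff W

theorem term_aux (hN : 0 < N) (f a : K[X]) (W : ℕ) {i j k : ℕ} (hj : j < N) (hi : i < N) (hk : k < N)
    (ha : (X ^ (i * f.natDegree) * expand K N a).natDegree ≤ W) :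
    (X ^ (k * f.natDegree) * (X ^ ((N - 1 - j) * f.natDegree) *
      expand K N (a * mu N f i j k))).natDegree ≤ W + (N - 1) * f.natDegree ∧
    (X ^ (k * f.natDegree) * (X ^ ((N - 1 - j) * f.natDegree) *
      expand K N (a * mu N f i j k))).coeff (W + (N - 1) * f.natDegree) =
      lam N f.natDegree W i a * mu N f.leadingCoeff i j k := by
  set m := f.natDegree with hm
  unfold mu
  by_cases h1 : i + j = k
  · rw [if_pos h1, if_pos h1, mul_one, mul_one]
    have h2 : k * m + (N - 1 - j) * m = i * m + (N - 1) * m := by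
      rw [← add_mul, ← add_mul]
      congr 1
      omega
    have h3 : X ^ (k * m) * (X ^ ((N - 1 - j) * m) * expand K N a) =
        (X ^ (i * m) * expand K N a) * X ^ ((N - 1) * m) := by
      rw [← mul_assoc, ← pow_add, h2, pow_add]
      ring
    rw [h3]
    constructor
    · refine natDegree_mul_le.trans ?_
      rw [natDegree_X_pow]
      omega
    · rw [coeff_mul_X_pow]
      rfl
  · rw [if_neg h1, if_neg h1]
    by_cases h4 : i + j = k + N
    · rw [if_pos h4, if_pos h4]
      have h2 : k * m + (N - 1 - j) * m + m = i * m := by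
        rw [← add_mul, ← Nat.succ_mul]
        congr 1
        omega
      have h5 : (expand K N f).natDegree = N * m := by
        rw [natDegree_expand, mul_comm]
      have h6 : (expand K N f).coeff (N * m) = f.leadingCoeff := coeff_expand_mul' hN _ _
      have h3 : X ^ m * (X ^ (k * m) * (X ^ ((N - 1 - j) * m) * expand K N (a * f))) =
          (X ^ (i * m) * expand K N a) * expand K N f := by
        rw [← h2, pow_add, pow_add, map_mul]
        ring
      have h7 : W + N * m = W + (N - 1) * m + m := by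
        obtain ⟨N', rfl⟩ := Nat.exists_eq_succ_of_ne_zero hN.ne'
        rw [Nat.succ_sub_one, Nat.succ_mul]
        ring
      have h8 : ((X ^ (i * m) * expand K N a) * expand K N f).natDegree ≤ W + N * m := by
        refine natDegree_mul_le.trans ?_
        omega
      constructor
      · by_cases h0 : X ^ (k * m) * (X ^ ((N - 1 - j) * m) * expand K N (a * f)) = 0
        · rw [h0, natDegree_zero]
          exact Nat.zero_le _
        · rw [← h3, natDegree_mul (pow_ne_zero _ X_ne_zero) h0, natDegree_X_pow, h7] at h8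
          omega
      · have h9 := congrArg (fun p : K[X] => p.coeff (W + N * m)) h3
        beta_reduce at h9
        rw [coeff_mul_add_eq_of_natDegree_le ha h5.le, h6, h7, coeff_X_pow_mul] at h9
        rw [h9]
        rfl
    · rw [if_neg h4, if_neg h4]
      simp

theorem coeff_det (hN : 0 < N) (f : K[X]) (a : Fin N → K[X]) (W : ℕ)
    (ha : ∀ i : Fin N, (X ^ ((i : ℕ) * f.natDegree) * expand K N (a i)).natDegree ≤ W) :
    (Matrix.of fun k j : Fin N => ∑ i : Fin N, a i * mu N f i j k).det.coeff W =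
      (Matrix.of fun k j : Fin N => ∑ i : Fin N,
        lam N f.natDegree W i (a i) * mu N f.leadingCoeff i j k).det := by
  classical
  set m := f.natDegree with hm
  set M : Matrix (Fin N) (Fin N) K[X] := Matrix.of fun k j : Fin N => ∑ i : Fin N,
    a i * mu N f i j k with hM
  let B : Matrix (Fin N) (Fin N) K[X] := Matrix.of fun k j : Fin N => X ^ ((k : ℕ) * m) *
    ((Matrix.of fun k j : Fin N => X ^ ((N - 1 - (j : ℕ)) * m) * expand K N (M k j)) k j)
  have hBdet : B.det = X ^ (N * ((N - 1) * m)) * expand K N M.det := by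
    have e1 : B.det = (∏ k : Fin N, X ^ ((k : ℕ) * m)) *
        ((∏ j : Fin N, X ^ ((N - 1 - (j : ℕ)) * m)) * expand K N M.det) := by
      rw [Matrix.det_mul_column]
      congr 1
      have e3 := Matrix.det_mul_row (fun j : Fin N => (X : K[X]) ^ ((N - 1 - (j : ℕ)) * m))
        ((expand K N).toRingHom.mapMatrix M)
      rw [← RingHom.map_det] at e3
      exact e3
    rw [e1, ← mul_assoc, ← Finset.prod_mul_distrib]
    congr 1
    have e4 : ∀ k : Fin N, (X : K[X]) ^ ((k : ℕ) * m) * X ^ ((N - 1 - (k : ℕ)) * m) =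
        X ^ ((N - 1) * m) := by
      intro k
      rw [← pow_add, ← add_mul]
      congr 2
      have := k.2
      omega
    rw [Finset.prod_congr rfl fun k _ => e4 k, Finset.prod_const, Finset.card_univ,
      Fintype.card_fin, ← pow_mul, mul_comm N]
  have hB : ∀ k j, (B k j).natDegree ≤ W + (N - 1) * m ∧
      (B k j).coeff (W + (N - 1) * m) =
        ∑ i : Fin N, lam N m W i (a i) * mu N f.leadingCoeff i j k := by
    intro k j
    have e2 : B k j = ∑ i : Fin N, X ^ ((k : ℕ) * m) * (X ^ ((N - 1 - (j : ℕ)) * m) *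
        expand K N (a i * mu N f i j k)) := by
      simp only [B, Matrix.of_apply, hM, map_sum, Finset.mul_sum]
    rw [e2]
    constructor
    · exact natDegree_sum_le_of_forall_le _ _ fun i _ =>
        (term_aux hN f (a i) W j.2 i.2 k.2 (ha i)).1
    · rw [finsetSum_coeff]
      exact Finset.sum_congr rfl fun i _ => (term_aux hN f (a i) W j.2 i.2 k.2 (ha i)).2
  have h1 := coeff_det_uniform B (W + (N - 1) * m) fun k j => (hB k j).1
  rw [hBdet, Fintype.card_fin, mul_add, coeff_X_pow_mul, mul_comm N W,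
    coeff_expand_mul hN] at h1
  rw [h1]
  congr 1
  ext k j
  rw [Matrix.of_apply, Matrix.of_apply]
  exact (hB k j).2

theorem isUnit_of_pow_eq_algebraMap {A : Type*} [Field A] {N : ℕ} (hN : 0 < N) (c : A)
    (hc : c ≠ 0) : IsUnit (yy N c) := by
  have h1 : IsUnit (yy N c ^ N) := by
    rw [yy_pow]
    exact (isUnit_iff_ne_zero.2 hc).map _
  exact (isUnit_pow_iff hN.ne').1 h1

/-- there is one place at infinity -/
def OnePlace (N : ℕ) (f : K[X]) : Prop :=
  Irreducible (X ^ Nat.gcd N f.natDegree - C f.leadingCoeff : K[X])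

theorem isUnit_of_onePlace (hN : 0 < N) {f : K[X]} (hf : f ≠ 0) (hinf : OnePlace N f)
    (a : Fin N → K[X]) (W : ℕ) (hne : ∃ i : Fin N, lam N f.natDegree W i (a i) ≠ 0) :
    IsUnit (∑ i : Fin N, lam N f.natDegree W i (a i) • bs hN.ne' f.leadingCoeff i) := by
  classical
  set d := Nat.gcd N f.natDegree with hd
  set N' := N / d with hN'
  have hd0 : 0 < d := Nat.gcd_pos_of_pos_left _ hN
  have hdN : d ∣ N := Nat.gcd_dvd_left _ _
  have hmul : N' * d = N := Nat.div_mul_cancel hdN
  have hN'0 : 0 < N' := Nat.div_pos (Nat.le_of_dvd hN hdN) hd0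
  obtain ⟨i, hi⟩ := hne
  have key : ∀ j : Fin N, lam N f.natDegree W j (a j) ≠ 0 →
      (j : ℕ) * f.natDegree ≤ W ∧ N ∣ W - (j : ℕ) * f.natDegree := by
    intro j hj
    unfold lam at hj
    rw [coeff_X_pow_mul'] at hj
    by_cases h1 : (j : ℕ) * f.natDegree ≤ W
    · rw [if_pos h1, coeff_expand hN] at hj
      by_cases h2 : N ∣ W - (j : ℕ) * f.natDegree
      · exact ⟨h1, h2⟩
      · rw [if_neg h2] at hj
        exact absurd rfl hj
    · rw [if_neg h1] at hj
      exact absurd rfl hj
  have hcongr : ∀ j : Fin N, lam N f.natDegree W j (a j) ≠ 0 → (j : ℕ) ≡ i [MOD N'] := by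
    intro j hj
    obtain ⟨h1, h2⟩ := key j hj
    obtain ⟨h3, h4⟩ := key i hi
    have h5 : (j : ℕ) * f.natDegree ≡ (i : ℕ) * f.natDegree [MOD N] := by
      have h6 : (j : ℕ) * f.natDegree ≡ W [MOD N] := (Nat.modEq_iff_dvd' h1).2 h2
      have h7 : (i : ℕ) * f.natDegree ≡ W [MOD N] := (Nat.modEq_iff_dvd' h3).2 h4
      exact h6.trans h7.symm
    exact Nat.ModEq.cancel_right_div_gcd hN h5
  have hlt : ∀ j : Fin N, (j : ℕ) / N' < d := by
    intro j
    rw [Nat.div_lt_iff_lt_mul hN'0, mul_comm, hmul]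
    exact j.2
  -- the element of the residue field
  let e : Rg d f.leadingCoeff := ∑ j : Fin N, lam N f.natDegree W j (a j) •
    bs hd0.ne' f.leadingCoeff ⟨(j : ℕ) / N', hlt j⟩
  have he : (bs hd0.ne' f.leadingCoeff).repr e ⟨(i : ℕ) / N', hlt i⟩ =
      lam N f.natDegree W i (a i) := by
    simp only [e]
    rw [map_sum, Finsupp.finsetSum_apply, Finset.sum_eq_single i]
    · rw [map_smul, Finsupp.smul_apply, Module.Basis.repr_self, Finsupp.single_eq_same,
        smul_eq_mul, mul_one]
    · intro j _ hji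
      by_cases h0 : lam N f.natDegree W j (a j) = 0
      · rw [h0, zero_smul, map_zero, Finsupp.zero_apply]
      · rw [map_smul, Finsupp.smul_apply, Module.Basis.repr_self, Finsupp.single_apply, if_neg,
          smul_zero]
        intro h1
        apply hji
        have h2 : (j : ℕ) / N' = (i : ℕ) / N' := congrArg Fin.val h1
        have h3 : (j : ℕ) % N' = (i : ℕ) % N' := hcongr j h0
        rw [Fin.ext_iff, ← Nat.div_add_mod (j : ℕ) N', h2, h3, Nat.div_add_mod]
    · intro h
      exact absurd (Finset.mem_univ _) h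
  have hfact : Fact (Irreducible (X ^ d - C f.leadingCoeff : K[X])) := ⟨hinf⟩
  have heu : IsUnit e := by
    refine isUnit_iff_ne_zero.2 fun h => hi ?_
    rw [← he, h, map_zero, Finsupp.zero_apply]
  let φ : Rg d f.leadingCoeff →+* Rg N f.leadingCoeff := AdjoinRoot.lift
    (algebraMap K (Rg N f.leadingCoeff)) (yy N f.leadingCoeff ^ N') (by
      rw [eval₂_sub, eval₂_X_pow, eval₂_C, ← pow_mul, hmul, yy_pow, sub_self])
  have hφ1 : ∀ r : K, φ (algebraMap K _ r) = algebraMap K _ r := fun r => AdjoinRoot.lift_of _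
  have hφ2 : φ (yy d f.leadingCoeff) = yy N f.leadingCoeff ^ N' := AdjoinRoot.lift_root _
  have hsum : ∑ j : Fin N, lam N f.natDegree W j (a j) • bs hN.ne' f.leadingCoeff j =
      yy N f.leadingCoeff ^ ((i : ℕ) % N') * φ e := by
    simp only [e]
    rw [map_sum, Finset.mul_sum]
    refine Finset.sum_congr rfl fun j _ => ?_
    by_cases h0 : lam N f.natDegree W j (a j) = 0
    · rw [h0, zero_smul, zero_smul, map_zero, mul_zero]
    · have h3 : (j : ℕ) % N' = (i : ℕ) % N' := hcongr j h0
      rw [bs_apply, bs_apply, Algebra.smul_def, Algebra.smul_def, map_mul, hφ1, map_pow, hφ2,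
        ← pow_mul, mul_left_comm, ← pow_add, ← h3, Nat.mod_add_div]
  rw [hsum]
  refine IsUnit.mul (IsUnit.pow _ ?_) (heu.map φ)
  exact isUnit_of_pow_eq_algebraMap hN f.leadingCoeff (leadingCoeff_ne_zero.2 hf)

/-- the weights of the coefficients are bounded by the degree of the norm -/
theorem weight_le (hN : 0 < N) {f : K[X]} (hf : f ≠ 0) (hinf : OnePlace N f) (w : Rg N f) (D : ℕ)
    (hw : (Algebra.norm K[X] w).natDegree ≤ D) (i : Fin N) (hi : (bs hN.ne' f).repr w i ≠ 0) :
    (i : ℕ) * f.natDegree + N * ((bs hN.ne' f).repr w i).natDegree ≤ D := by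
  classical
  set a : Fin N → K[X] := fun i => (bs hN.ne' f).repr w i with ha
  set g : Fin N → K[X] := fun i => X ^ ((i : ℕ) * f.natDegree) * expand K N (a i) with hg
  have hg0 : ∀ i, a i ≠ 0 → g i ≠ 0 := fun i h => mul_ne_zero (pow_ne_zero _ X_ne_zero)
    ((expand_ne_zero hN).2 h)
  have hgd : ∀ i, a i ≠ 0 → (g i).natDegree = (i : ℕ) * f.natDegree + N * (a i).natDegree := by
    intro i h
    rw [hg]
    beta_reduce
    rw [natDegree_mul (pow_ne_zero _ X_ne_zero) ((expand_ne_zero hN).2 h), natDegree_X_pow,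
      natDegree_expand, mul_comm N]
  obtain ⟨i₀, hi₀, hmax⟩ := Finset.exists_max_image (Finset.univ.filter fun i => a i ≠ 0)
    (fun i => (g i).natDegree) ⟨i, Finset.mem_filter.2 ⟨Finset.mem_univ _, hi⟩⟩
  have hi₀' : a i₀ ≠ 0 := (Finset.mem_filter.1 hi₀).2
  set W := (g i₀).natDegree with hW
  have hle : ∀ j, (g j).natDegree ≤ W := by
    intro j
    by_cases hj : a j = 0
    · have : g j = 0 := by
        rw [hg]
        beta_reduce
        rw [hj, map_zero, mul_zero]
      rw [this, natDegree_zero]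
      exact Nat.zero_le _
    · exact hmax j (Finset.mem_filter.2 ⟨Finset.mem_univ _, hj⟩)
  have hunit := isUnit_of_onePlace hN hf hinf a W ⟨i₀, by
    change (g i₀).coeff (g i₀).natDegree ≠ 0
    exact leadingCoeff_ne_zero.2 (hg0 i₀ hi₀')⟩
  have h1 := coeff_det hN f a W hle
  have h2 := norm_eq_det hN.ne' f w
  have h3 := norm_eq_det hN.ne' f.leadingCoeff
    (∑ i : Fin N, lam N f.natDegree W i (a i) • bs hN.ne' f.leadingCoeff i)
  rw [Module.Basis.repr_sum_self] at h3
  have h4 : IsUnit (Algebra.norm K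
      (∑ i : Fin N, lam N f.natDegree W i (a i) • bs hN.ne' f.leadingCoeff i)) := hunit.map _
  have h5 : (Algebra.norm K[X] w).coeff W ≠ 0 := by
    rw [h2]
    change (Matrix.of fun k j : Fin N => ∑ i : Fin N, a i * mu N f i j k).det.coeff W ≠ 0
    rw [h1]
    rw [h3] at h4
    exact h4.ne_zero
  have h6 : W ≤ D := (le_natDegree_of_ne_zero h5).trans hw
  have h7 := (hle i).trans h6
  rw [hgd i hi] at h7
  exact h7

end Pool.Agent.Helper45.HJ
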