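import Pool.Agent.Helper45.HJ.Ring

set_option autoImplicit false

/-!
`K[X][Y]/(Y ^ N - f)` is a domain if `f` is separable and not constant.
-/

namespace Pool.Agent.Helper45.HJ

open Polynomial

variable {K : Type*} [Field K] {N : ℕ}

theorem irreducible_pol (hN : 0 < N) {f : K[X]} (hf : f.Separable) (hd : 0 < f.natDegree) :
    Irreducible (X ^ N - C f : K[X][X]) := by
  classical
  obtain ⟨p, hp, hpf⟩ := exists_irreducible_of_natDegree_pos hd
  have hp' : Prime p := hp.prime
  have hP : (Ideal.span {p} : Ideal K[X]).IsPrime := (Ideal.span_singleton_prime hp'.ne_zero).2 hp'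
  have hmonic : (X ^ N - C f : K[X][X]).Monic := monic_X_pow_sub_C f hN.ne'
  refine irreducible_of_eisenstein_criterion hP ?_ ?_ ?_ ?_ ?_
  · rw [hmonic.leadingCoeff, Ideal.mem_span_singleton]
    exact hp'.not_dvd_one
  · intro n hn
    rw [degree_X_pow_sub_C hN] at hn
    have hn' : n < N := by exact_mod_cast hn
    rw [coeff_sub, coeff_X_pow, if_neg hn'.ne, coeff_C]
    by_cases h0 : n = 0
    · rw [if_pos h0, zero_sub]
      exact (Ideal.neg_mem_iff _).2 (Ideal.mem_span_singleton.2 hpf)
    · rw [if_neg h0, sub_zero]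
      exact Ideal.zero_mem _
  · rw [degree_X_pow_sub_C hN]
    exact_mod_cast hN
  · rw [coeff_sub, coeff_X_pow, if_neg hN.ne, coeff_C_zero, zero_sub, Ideal.span_singleton_pow,
      Ideal.mem_span_singleton, dvd_neg]
    intro h
    have h1 := hf.squarefree p (by rw [← pow_two]; exact h)
    exact hp.not_isUnit h1
  · exact hmonic.isPrimitive

theorem isDomain_Rg (hN : 0 < N) {f : K[X]} (hf : f.Separable) (hd : 0 < f.natDegree) :
    IsDomain (Rg N f) :=
  AdjoinRoot.isDomain_of_prime (irreducible_pol hN hf hd).prime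

end Pool.Agent.Helper45.HJ
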