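import Pool.Agent.Helper45.HJ.Pt
import Pool.Agent.Helper51.EC2.Poly

set_option autoImplicit false

/-!
If the `x`-coordinates of the `L`-points are dense in the Weil restriction, the class group of
`K[X][Y]/(Y ^ N - f)` is infinite.
-/

namespace Pool.Agent.Helper45.HJ

open Polynomial
open Pool.Agent.Helper51.EC2 (Dens FP FP_ne_zero eval_FP_eq_zero natDegree_minpoly_eq)

variable {K : Type*} [Field K] {N : ℕ}

theorem exists_isPt (hNK : (N : K) ≠ 0) {f M v : K[X]} (hM : Irreducible M)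
    (hd : M ∣ v ^ N - f) (hv : ¬ M ∣ v) : ∃ v', IsPt N f M v' := by
  by_cases h : M ^ 2 ∣ v ^ N - f
  · refine ⟨v + M, hM, ?_, ?_, ?_⟩
    · have h1 : v + M - v ∣ (v + M) ^ N - v ^ N := sub_dvd_pow_sub_pow _ _ _
      rw [add_sub_cancel_left] at h1
      have h2 := dvd_add h1 hd
      rwa [sub_add_sub_cancel] at h2
    · intro h'
      have hN0 : N ≠ 0 := by
        rintro rfl
        simp at hNK
      obtain ⟨q, hq⟩ := (Polynomial.powAddExpansion v M N)
      have h3 : M ^ 2 ∣ N * v ^ (N - 1) * M := by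
        have h4 := dvd_sub (dvd_sub h' h) (Dvd.intro_left q rfl : M ^ 2 ∣ q * M ^ 2)
        rw [hq] at h4
        refine (congrArg (fun p => M ^ 2 ∣ p) ?_).mp h4
        ring
      have h5 : M ∣ N * v ^ (N - 1) := by
        rw [pow_two] at h3
        exact (mul_dvd_mul_iff_right hM.ne_zero).1 h3
      rcases hM.prime.dvd_or_dvd h5 with h6 | h6
      · rw [← C_eq_natCast] at h6
        exact hM.not_isUnit (isUnit_of_dvd_unit h6 ((isUnit_iff_ne_zero.2 hNK).map C))
      · exact hv (hM.prime.dvd_of_dvd_pow h6)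
    · intro h'
      exact hv ((dvd_add_left (dvd_refl M)).1 h')
  · exact ⟨v, hM, hd, h, hv⟩

section main

variable {L Ω : Type*} [Field L] [Field Ω] [Algebra K L] [Algebra K Ω]
  [FiniteDimensional K L] [Algebra.IsSeparable K L] [IsAlgClosed Ω]

theorem exists_aeval_eq {t : L} (ht : (minpoly K t).natDegree = Module.finrank K L) (y : L) :
    ∃ v : K[X], aeval t v = y := by
  have h1 : IntermediateField.adjoin K {t} = ⊤ :=
    (Field.primitive_element_iff_minpoly_natDegree_eq K t).2 ht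
  have h2 : y ∈ (IntermediateField.adjoin K {t}).toSubalgebra := by
    rw [h1]
    trivial
  rw [IntermediateField.adjoin_simple_toSubalgebra_of_isAlgebraic
    (Algebra.IsAlgebraic.isAlgebraic t), Algebra.adjoin_singleton_eq_range_aeval] at h2
  exact h2

theorem exists_isPt_of_point (hNK : (N : K) ≠ 0) (hN : N ≠ 0) {f : K[X]} {t y : L}
    (ht : (minpoly K t).natDegree = Module.finrank K L) (hy : y ^ N = aeval t f)
    (hf : aeval t f ≠ 0) : ∃ v, IsPt N f (minpoly K t) v := by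
  obtain ⟨v, hv⟩ := exists_aeval_eq ht y
  have hint : IsIntegral K t := Algebra.IsIntegral.isIntegral t
  refine exists_isPt (v := v) hNK (minpoly.irreducible hint) (minpoly.dvd K t ?_) ?_
  · rw [map_sub, map_pow, hv, hy, sub_self]
  · intro h
    have h1 : aeval t v = 0 := by
      obtain ⟨q, hq⟩ := h
      rw [hq, map_mul, minpoly.aeval, zero_mul]
    rw [hv] at h1
    rw [h1, zero_pow hN] at hy
    exact hf hy.symm

/-- a nonzero polynomial in one of the variables -/
theorem aeval_X_ne_zero {ι : Type*} (i : ι) {p : K[X]} (hp : p ≠ 0) :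
    aeval (MvPolynomial.X i : MvPolynomial ι Ω) p ≠ 0 := by
  classical
  intro h
  obtain ⟨x, hx⟩ := Infinite.exists_notMem_finset (p.aroots Ω).toFinset
  apply hx
  rw [Multiset.mem_toFinset, mem_aroots]
  refine ⟨hp, ?_⟩
  have h1 := congrArg (MvPolynomial.aeval (fun _ => x) : MvPolynomial ι Ω →ₐ[Ω] Ω) h
  rw [map_zero] at h1
  have h2 : (MvPolynomial.aeval (fun _ => x) : MvPolynomial ι Ω →ₐ[Ω] Ω)
      (aeval (MvPolynomial.X i : MvPolynomial ι Ω) p) = aeval x p := by
    have h3 := aeval_algHom_apply ((MvPolynomial.aeval (fun _ => x) :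
      MvPolynomial ι Ω →ₐ[Ω] Ω).restrictScalars K) (MvPolynomial.X i : MvPolynomial ι Ω) p
    rw [AlgHom.restrictScalars_apply, MvPolynomial.aeval_X, AlgHom.restrictScalars_apply] at h3
    exact h3.symm
  rw [h2] at h1
  exact h1

omit [FiniteDimensional K L] [Algebra.IsSeparable K L] [IsAlgClosed Ω] in
theorem eval_aeval_X (σ : L →ₐ[K] Ω) (p : K[X]) (t : L) :
    MvPolynomial.eval (fun τ : L →ₐ[K] Ω => τ t)
      (aeval (MvPolynomial.X σ : MvPolynomial (L →ₐ[K] Ω) Ω) p) = σ (aeval t p) := by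
  have h3 := aeval_algHom_apply ((MvPolynomial.aeval (fun τ : L →ₐ[K] Ω => τ t) :
      MvPolynomial (L →ₐ[K] Ω) Ω →ₐ[Ω] Ω).restrictScalars K)
      (MvPolynomial.X σ : MvPolynomial (L →ₐ[K] Ω) Ω) p
  rw [AlgHom.restrictScalars_apply, MvPolynomial.aeval_X, AlgHom.restrictScalars_apply,
    aeval_algHom_apply] at h3
  rw [h3]
  rfl

/-- a left inverse of the multiplication by a nonzero polynomial -/
theorem exists_leftInverse' {g : K[X]} (hg : g ≠ 0) :
    ∃ Λ : K[X] →ₗ[K] K[X], ∀ p, Λ (g * p) = p := by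
  obtain ⟨r, hr⟩ := LinearMap.exists_leftInverse_of_injective (LinearMap.mulLeft K g)
    (by
      rw [LinearMap.ker_eq_bot]
      intro p q h
      exact mul_left_cancel₀ hg h)
  exact ⟨r, fun p => congrArg (fun f : K[X] →ₗ[K] K[X] => f p) hr⟩

theorem infinite_of_dens' [Infinite K] (hN : 2 ≤ N) (hNK : (N : K) ≠ 0) {f : K[X]} (hf : f ≠ 0)
    [IsDomain (Rg N f)] (hinf : OnePlace N f) (hgen : N < (N - 1) * f.natDegree)
    (T : Set L) (hT : Dens K Ω T) (hy : ∀ t ∈ T, ∃ y : L, y ^ N = aeval t f) :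
    Infinite (ClassGroup (Rg N f)) := by
  classical
  have hN0 : N ≠ 0 := by omega
  set n := Module.finrank K L with hn
  have hn1 : 1 ≤ n := Module.finrank_pos
  have hcard : Fintype.card (L →ₐ[K] Ω) = n := AlgHom.card K L Ω
  have hne : Nonempty (L →ₐ[K] Ω) := by
    rw [← Fintype.card_pos_iff, hcard]
    exact hn1
  obtain ⟨σ₀⟩ := hne
  by_contra hcon
  rw [not_infinite_iff_finite] at hcon
  have : Fintype (ClassGroup (Rg N f)) := Fintype.ofFinite _
  -- good elements
  let good : Set L := {t | (minpoly K t).natDegree = n ∧ aeval t f ≠ 0 ∧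
    ∃ y : L, y ^ N = aeval t f}
  have hpt : ∀ t : good, ∃ v, IsPt N f (minpoly K (t : L)) v := by
    rintro ⟨t, ht1, ht2, y, ht3⟩
    exact exists_isPt_of_point hNK hN0 ht1 ht3 ht2
  choose v hv using hpt
  have hint : ∀ t : L, IsIntegral K t := fun t => Algebra.IsIntegral.isIntegral t
  have hMne : ∀ t : L, algebraMap K[X] (Rg N f) (minpoly K t) ≠ 0 := by
    intro t h
    have h1 := congrArg (fun w : Rg N f => (bs hN0 f).repr w ⟨0, by omega⟩) h
    beta_reduce at h1
    have h2 : algebraMap K[X] (Rg N f) (minpoly K t) =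
        (minpoly K t) • bs hN0 f ⟨0, by omega⟩ := by
      rw [bs_apply, Algebra.smul_def]
      change _ = _ * yy N f ^ 0
      rw [pow_zero, mul_one]
    rw [h2, map_smul, map_zero, Finsupp.smul_apply, Module.Basis.repr_self,
      Finsupp.single_eq_same, Finsupp.zero_apply, smul_eq_mul, mul_one] at h1
    exact minpoly.ne_zero (hint t) h1
  let cl : good → ClassGroup (Rg N f) := fun t => clOf (PP N f (minpoly K (t : L)) (v t))
    (QQ N f (minpoly K (t : L)) (v t)) _ (hMne t) (PP_mul_QQ hNK (hv t))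
  -- the relations
  have hrel : ∀ g : good, ∃ (D : ℕ) (Ψ : MvPolynomial (Fin (n + 1)) K), Ψ ≠ 0 ∧
      Ψ.IsHomogeneous D ∧ ∀ u ∈ UU hN0 f (minpoly K (g : L)) (v g) n, ∀ c : K, c ≠ 0 →
        ∀ M : K[X], Algebra.norm K[X] u = minpoly K (g : L) ^ (N - 1) * (C c * M) →
        MvPolynomial.eval (fun i : Fin (n + 1) => M.coeff i) Ψ = 0 := by
    intro g
    obtain ⟨hfd, hfr⟩ := finrank_UU_le hN f (minpoly K (g : L)) (v g) n hn1 g.2.1
    obtain ⟨Λ, hΛ⟩ := exists_leftInverse'
      (pow_ne_zero (N - 1) (minpoly.ne_zero (hint (g : L))))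
    obtain ⟨D, Ψ, h0, hD, h⟩ := exists_norm_relation (by omega) f n _ hfr Λ
    exact ⟨D, Ψ, h0, hD, fun u hu c hc M hM => h u hu c hc M (by rw [hM, hΛ])⟩
  choose D Ψ hΨ0 hΨD hΨ using hrel
  have hmap : ∀ Ψ : MvPolynomial (Fin (n + 1)) K, Ψ ≠ 0 →
      MvPolynomial.map (algebraMap K Ω) Ψ ≠ 0 := by
    intro Ψ hΨ h
    apply hΨ
    apply MvPolynomial.map_injective _ (algebraMap K Ω).injective
    rw [h, map_zero]
  let F : good → MvPolynomial (L →ₐ[K] Ω) Ω := fun g =>
    FP _ (MvPolynomial.map (algebraMap K Ω) (Ψ g)) *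
      aeval (MvPolynomial.X σ₀ : MvPolynomial (L →ₐ[K] Ω) Ω) (minpoly K (g : L))
  have hF : ∀ g, F g ≠ 0 := fun g => mul_ne_zero
    (FP_ne_zero hcard (hmap _ (hΨ0 g)) ((hΨD g).map _))
    (aeval_X_ne_zero σ₀ (minpoly.ne_zero (hint (g : L))))
  let G : ClassGroup (Rg N f) → MvPolynomial (L →ₐ[K] Ω) Ω := fun γ =>
    if h : ∃ g, cl g = γ then F h.choose else 1
  have hG : ∀ γ, G γ ≠ 0 := by
    intro γ
    by_cases h : ∃ g, cl g = γ
    · simp only [G, dif_pos h]
      exact hF _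
    · simp only [G, dif_neg h]
      exact one_ne_zero
  let Dd : MvPolynomial (L →ₐ[K] Ω) Ω := ∏ p ∈ (Finset.univ : Finset (L →ₐ[K] Ω)).offDiag,
    (MvPolynomial.X p.1 - MvPolynomial.X p.2)
  have hDd : Dd ≠ 0 := by
    refine Finset.prod_ne_zero_iff.2 fun p hp h => ?_
    have hne := (Finset.mem_offDiag.1 hp).2.2
    exact hne (MvPolynomial.X_injective (sub_eq_zero.1 h))
  obtain ⟨t, htT, ht⟩ := hT ((∏ γ, G γ) * Dd *
      aeval (MvPolynomial.X σ₀ : MvPolynomial (L →ₐ[K] Ω) Ω) f)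
    (mul_ne_zero (mul_ne_zero (Finset.prod_ne_zero_iff.2 fun γ _ => hG γ) hDd)
      (aeval_X_ne_zero σ₀ hf))
  rw [map_mul, map_mul, map_prod] at ht
  have htG := Finset.prod_ne_zero_iff.1 (left_ne_zero_of_mul (left_ne_zero_of_mul ht))
  have htD := right_ne_zero_of_mul (left_ne_zero_of_mul ht)
  have htf := right_ne_zero_of_mul ht
  have hinj : Function.Injective fun σ : L →ₐ[K] Ω => σ t := by
    intro σ τ hστ
    by_contra hne
    simp only [Dd, map_prod, map_sub, MvPolynomial.eval_X] at htD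
    exact (Finset.prod_ne_zero_iff.1 htD (σ, τ) (Finset.mem_offDiag.2
      ⟨Finset.mem_univ _, Finset.mem_univ _, hne⟩)) (sub_eq_zero.2 hστ)
  have hdeg : (minpoly K t).natDegree = n := natDegree_minpoly_eq t hinj
  have htf' : aeval t f ≠ 0 := by
    intro h
    rw [eval_aeval_X, h, map_zero] at htf
    exact htf rfl
  have htgood : t ∈ good := ⟨hdeg, htf', hy t htT⟩
  let t' : good := ⟨t, htgood⟩
  have hex : ∃ g, cl g = cl t' := ⟨t', rfl⟩
  have hGt : G (cl t') = F hex.choose := by simp only [G, dif_pos hex]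
  have hclg : cl hex.choose = cl t' := hex.choose_spec
  have hFt := htG (cl t') (Finset.mem_univ _)
  rw [hGt] at hFt
  set g := hex.choose with hg
  rw [show F g = FP _ (MvPolynomial.map (algebraMap K Ω) (Ψ g)) *
      aeval (MvPolynomial.X σ₀ : MvPolynomial (L →ₐ[K] Ω) Ω) (minpoly K (g : L)) from rfl,
    map_mul] at hFt
  have hF1 := left_ne_zero_of_mul hFt
  have hF2 := right_ne_zero_of_mul hFt
  have hcop : IsCoprime (minpoly K t) (minpoly K (g : L)) := by
    rw [(minpoly.irreducible (hint t)).coprime_iff_not_dvd]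
    intro h
    have h1 : aeval t (minpoly K (g : L)) = 0 := by
      obtain ⟨q, hq⟩ := h
      rw [hq, map_mul, minpoly.aeval, zero_mul]
    rw [eval_aeval_X, h1, map_zero] at hF2
    exact hF2 rfl
  obtain ⟨x, y, hx, hyy, hxy⟩ := exists_of_clOf_eq _ _ _ _ _ _ _ _ _ _ hclg.symm
  obtain ⟨w, w', h1, h2, h3, h4, h5⟩ := of_mul_eq _ _ _ _ _ _ x y hx hyy
    (PP_mul_QQ hNK (hv t')) (PP_mul_QQ hNK (hv g)) hxy
  obtain ⟨c, hc, hnorm⟩ := norm_eq (by omega) (hv t') (hv g) hcop h1 h2 h3 h4 h5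
  have hd : (Algebra.norm K[X] w).natDegree ≤ N * n := by
    rw [hnorm]
    refine natDegree_mul_le.trans ?_
    have h6 := natDegree_pow_le (p := minpoly K (g : L)) (n := N - 1)
    have h7 := natDegree_C_mul_le c (minpoly K t)
    rw [g.2.1] at h6
    have h8 : N * n = (N - 1) * n + n := by
      obtain ⟨N', rfl⟩ := Nat.exists_eq_succ_of_ne_zero hN0
      rw [Nat.succ_sub_one, Nat.succ_mul]
    rw [h8]
    exact Nat.add_le_add h6 (h7.trans hdeg.le)
  have hwU := mem_UU_of_mem_QQ hN hf hinf hgen (hv g) n h2 hd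
  exact hF1 (eval_FP_eq_zero t hinj (Ψ g) (hΨ g w hwU c hc _ hnorm))

end main

end Pool.Agent.Helper45.HJ
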