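import Pool.Agent.Helper45.HJ.Grid
import Pool.Agent.Helper45.HJ.Main
import Pool.Agent.Helper45.HJ.Domain

set_option autoImplicit false

/-!
Infinitely many ideal classes over fields with finitely generated absolute Galois group.
-/

namespace Pool.Agent.Helper45.HJ

open Polynomial

variable {K : Type*} [Field K] {N : ℕ}

/-- a product of `N`-th powers -/
theorem exists_root_prod {L : Type*} [Field L] (N : ℕ) (s : Multiset L) (t : L)
    (h : ∀ θ ∈ s, ∃ w : L, w ^ N = t - θ) :
    ∃ y : L, y ^ N = (s.map fun θ => t - θ).prod := by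
  induction s using Multiset.induction_on with
  | empty => exact ⟨1, by simp⟩
  | cons a s ih =>
    obtain ⟨y, hy⟩ := ih fun θ hθ => h θ (Multiset.mem_cons_of_mem hθ)
    obtain ⟨w, hw⟩ := h a (Multiset.mem_cons_self a s)
    exact ⟨w * y, by rw [mul_pow, hw, hy, Multiset.map_cons, Multiset.prod_cons]⟩

theorem aeval_eq_prod {L : Type*} [Field L] [Algebra K L] {f : K[X]}
    (h : (f.map (algebraMap K L)).Splits) (t : L) : aeval t f =
      algebraMap K L f.leadingCoeff * ((f.map (algebraMap K L)).roots.map fun θ => t - θ).prod := by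
  have h1 := congrArg (eval t) h.eq_prod_roots
  rw [eval_map_algebraMap, eval_mul, eval_C, leadingCoeff_map, eval_multiset_prod,
    Multiset.map_map] at h1
  rw [h1]
  congr 2
  refine Multiset.map_congr rfl fun θ _ => ?_
  rw [Function.comp_apply, eval_sub, eval_X, eval_C]

/-- there is a finite separable extension over which the relevant elements are dense -/
theorem exists_dens [Infinite K]
    (hK : ∃ S : Set (Field.absoluteGaloisGroup K), S.Finite ∧
      closure ((Subgroup.closure S : Subgroup (Field.absoluteGaloisGroup K)) :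
        Set (Field.absoluteGaloisGroup K)) = Set.univ)
    (hN0 : 0 < N) (hNK : (N : K) ≠ 0) {f : K[X]} (hf : f.Separable) :
    ∃ L : IntermediateField K (AlgebraicClosure K), FiniteDimensional K L ∧
      Algebra.IsSeparable K L ∧ Pool.Agent.Helper51.EC2.Dens K (AlgebraicClosure K)
        {t : L | ∃ y : L, y ^ N = aeval t f} := by
  classical
  have hf0 : f ≠ 0 := hf.ne_zero
  have hc0 : f.leadingCoeff ≠ 0 := leadingCoeff_ne_zero.2 hf0
  -- the field
  have hX0 : (X ^ N - C f.leadingCoeff : K[X]) ≠ 0 := X_pow_sub_C_ne_zero hN0 _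
  have hq0 : f * (X ^ N - C f.leadingCoeff) ≠ 0 := mul_ne_zero hf0 hX0
  have hsep : ∀ θ ∈ (f * (X ^ N - C f.leadingCoeff)).rootSet (AlgebraicClosure K),
      IsSeparable K θ := by
    intro θ hθ
    have h1 : aeval θ (f * (X ^ N - C f.leadingCoeff)) = 0 := (mem_rootSet.1 hθ).2
    rw [map_mul] at h1
    rcases mul_eq_zero.1 h1 with h2 | h2
    · exact hf.of_dvd (minpoly.dvd K θ h2)
    · exact (separable_X_pow_sub_C f.leadingCoeff hNK hc0).of_dvd (minpoly.dvd K θ h2)
  have hfin : Finite ((f * (X ^ N - C f.leadingCoeff)).rootSet (AlgebraicClosure K)) :=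
    (rootSet_finite _ _)
  let L : IntermediateField K (AlgebraicClosure K) := IntermediateField.adjoin K
    ((f * (X ^ N - C f.leadingCoeff)).rootSet (AlgebraicClosure K))
  have hLfd : FiniteDimensional K L :=
    IntermediateField.finiteDimensional_adjoin fun θ hθ => (hsep θ hθ).isIntegral
  have hLsep : Algebra.IsSeparable K L :=
    (IntermediateField.isSeparable_adjoin_iff_isSeparable K (AlgebraicClosure K)).2 hsep
  have hLinf : Infinite L := Infinite.of_injective _ (algebraMap K L).injective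
  have hNL : (N : L) ≠ 0 := by
    intro h
    apply hNK
    apply (algebraMap K L).injective
    rw [map_natCast, map_zero, h]
  have hFI : Pool.Agent.Helper51.KL.FinIdx L N :=
    Pool.Agent.Helper51.EC2.finIdx_of_fix (Pool.Agent.Helper51.EC2.exists_fix hK L) hNL
  have hsplq : ((f * (X ^ N - C f.leadingCoeff)).map (algebraMap K L)).Splits :=
    (IntermediateField.adjoin_rootSet_isSplittingField (IsAlgClosed.splits _)).splits
  have hqm : (f * (X ^ N - C f.leadingCoeff)).map (algebraMap K L) ≠ 0 :=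
    (Polynomial.map_ne_zero_iff (algebraMap K L).injective).2 hq0
  have hsplf : (f.map (algebraMap K L)).Splits :=
    hsplq.of_dvd hqm (Polynomial.map_dvd _ (Dvd.intro _ rfl))
  have hsplX : ((X ^ N - C f.leadingCoeff : K[X]).map (algebraMap K L)).Splits :=
    hsplq.of_dvd hqm (Polynomial.map_dvd _ (Dvd.intro_left _ rfl))
  obtain ⟨δ, hδ⟩ : ∃ δ : L, δ ^ N = algebraMap K L f.leadingCoeff := by
    obtain ⟨δ, hδ⟩ := hsplX.exists_eval_eq_zero (by
      rw [degree_map, degree_X_pow_sub_C hN0]
      exact_mod_cast hN0.ne')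
    refine ⟨δ, ?_⟩
    rw [Polynomial.map_sub, Polynomial.map_pow, map_X, map_C, eval_sub, eval_pow, eval_X,
      eval_C] at hδ
    exact sub_eq_zero.1 hδ
  refine ⟨L, hLfd, hLsep, ?_⟩
  refine dens_of_scaling_pow hN0 _ fun G => ?_
  obtain ⟨t₀, ht₀, hG⟩ := exists_scaling_pow hFI (f.map (algebraMap K L)).roots.toFinset G
  refine ⟨t₀, ht₀, fun g hg hg0 => ?_⟩
  obtain ⟨y, hy⟩ := exists_root_prod N (f.map (algebraMap K L)).roots (t₀ * g ^ N)
    fun θ hθ => hG g hg hg0 θ (Multiset.mem_toFinset.2 hθ)
  exact ⟨δ * y, by rw [mul_pow, hδ, hy, aeval_eq_prod hsplf]⟩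

theorem infinite_classGroup [Infinite K]
    (hK : ∃ S : Set (Field.absoluteGaloisGroup K), S.Finite ∧
      closure ((Subgroup.closure S : Subgroup (Field.absoluteGaloisGroup K)) :
        Set (Field.absoluteGaloisGroup K)) = Set.univ)
    (hN : 2 ≤ N) (hNK : (N : K) ≠ 0) {f : K[X]} (hf : f.Separable)
    [IsDomain (Rg N f)] (hinf : OnePlace N f) (hgen : N < (N - 1) * f.natDegree) :
    Infinite (ClassGroup (Rg N f)) := by
  obtain ⟨L, hLfd, hLsep, hd⟩ := exists_dens hK (by omega) hNK hf
  exact infinite_of_dens' (Ω := AlgebraicClosure K) (L := L) hN hNK hf.ne_zero hinf hgen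
    {t : L | ∃ y : L, y ^ N = aeval t f} hd fun t ht => ht

end Pool.Agent.Helper45.HJ
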