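import Pool.Agent.Helper51.EC2.Grid
import Pool.Agent.Helper51.EC2.Fix

set_option autoImplicit false

/-!
Density in the Weil restriction from scaling by `N`-th powers.
-/

namespace Pool.Agent.Helper45.HJ

open MvPolynomial
open Pool.Agent.Helper51.EC2 (Dens exists_basis totalDegree_aeval_le)

variable {K L Ω : Type*} [Field K] [Field L] [Field Ω] [Algebra K L] [Algebra K Ω]
  [FiniteDimensional K L] [Algebra.IsSeparable K L] [IsAlgClosed Ω]

/-- the grid lemma for `N`-th powers -/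
theorem exists_grid_pow [Infinite K] {N : ℕ} (hN : 0 < N) (D : ℕ) :
    ∃ G : Finset L, ∀ t₀ : L, t₀ ≠ 0 →
    ∀ F : MvPolynomial (L →ₐ[K] Ω) Ω, F ≠ 0 → F.totalDegree ≤ D →
      ∃ g ∈ G, eval (fun σ => σ (t₀ * g ^ N)) F ≠ 0 := by
  classical
  obtain ⟨b, hb⟩ := exists_basis K L Ω
  obtain ⟨A, hA⟩ := Infinite.exists_subset_card_eq K (N * D + 1)
  refine ⟨(Fintype.piFinset fun _ : (L →ₐ[K] Ω) => A).image
    fun a => ∑ j, a j • b j, fun t₀ ht₀ F hF hFD => ?_⟩
  by_contra hcon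
  push Not at hcon
  let g : (L →ₐ[K] Ω) → MvPolynomial (L →ₐ[K] Ω) Ω := fun σ =>
    C (σ t₀) * (∑ j, X j * C (σ (b j))) ^ N
  have hgdeg : ∀ σ, (g σ).totalDegree ≤ N := by
    intro σ
    refine (totalDegree_mul _ _).trans ?_
    rw [totalDegree_C, zero_add]
    refine (totalDegree_pow _ _).trans ?_
    have h1 : (∑ j, X j * C (σ (b j)) : MvPolynomial (L →ₐ[K] Ω) Ω).totalDegree ≤ 1 := by
      refine (totalDegree_finsetSum _ _).trans ?_
      refine Finset.sup_le fun j _ => ?_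
      refine (totalDegree_mul _ _).trans ?_
      rw [totalDegree_C, add_zero]
      exact (totalDegree_X j).le
    calc N * (∑ j, X j * C (σ (b j)) : MvPolynomial (L →ₐ[K] Ω) Ω).totalDegree ≤ N * 1 :=
          Nat.mul_le_mul_left _ h1
      _ = N := mul_one N
  have hzero : aeval g F = 0 := by
    refine eq_zero_of_eval_zero_at_prod_finset _
      (fun _ => A.image (algebraMap K Ω)) (fun i => ?_) (fun x hx => ?_)
    · rw [Finset.card_image_of_injective _ (algebraMap K Ω).injective, hA]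
      have h1 := degreeOf_le_totalDegree (aeval g F) i
      have h2 := totalDegree_aeval_le F g N hgdeg
      have h3 : N * F.totalDegree ≤ N * D := Nat.mul_le_mul_left _ hFD
      omega
    · have hx' : ∀ i, ∃ a ∈ A, algebraMap K Ω a = x i := fun i => Finset.mem_image.1 (hx i)
      choose a haA hax using hx'
      have h1 := hcon (∑ j, a j • b j) (Finset.mem_image.2 ⟨a, by
        rw [Fintype.mem_piFinset]; exact haA, rfl⟩)
      rw [← h1]
      have h2 : eval x (aeval g F) = eval (fun σ => eval x (g σ)) F := by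
        rw [← coe_aeval_eq_eval, ← coe_aeval_eq_eval]
        simp only [RingHom.coe_coe]
        rw [← AlgHom.comp_apply, comp_aeval]
      rw [h2]
      refine congrArg (fun v : (L →ₐ[K] Ω) → Ω => eval v F) (_root_.funext fun σ => ?_)
      simp only [g, map_mul, map_pow, map_sum, eval_C, eval_X, map_smul]
      congr 2
      refine Finset.sum_congr rfl fun j _ => ?_
      rw [← hax j, Algebra.smul_def]
  apply hF
  refine MvPolynomial.funext fun v => ?_
  rw [map_zero]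
  have hr : ∀ σ : L →ₐ[K] Ω, ∃ w : Ω, w ^ N = v σ / σ t₀ := fun σ =>
    IsAlgClosed.exists_pow_nat_eq _ hN
  choose w hw using hr
  obtain ⟨a, ha⟩ := hb w
  have h2 : eval a (aeval g F) = eval (fun σ => eval a (g σ)) F := by
    rw [← coe_aeval_eq_eval, ← coe_aeval_eq_eval]
    simp only [RingHom.coe_coe]
    rw [← AlgHom.comp_apply, comp_aeval]
  rw [hzero, map_zero] at h2
  rw [h2]
  refine congrArg (fun v : (L →ₐ[K] Ω) → Ω => eval v F) (_root_.funext fun σ => ?_)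
  simp only [g, map_mul, map_pow, map_sum, eval_C, eval_X]
  rw [ha σ, hw σ, mul_div_cancel₀]
  rw [ne_eq, map_eq_zero]
  exact ht₀

/-- density from finite scaling sets -/
theorem dens_of_scaling_pow [Infinite K] {N : ℕ} (hN : 0 < N) (Q : Set L)
    (hQ : ∀ G : Finset L, ∃ t₀ : L, t₀ ≠ 0 ∧ ∀ g ∈ G, g ≠ 0 → t₀ * g ^ N ∈ Q) : Dens K Ω Q := by
  classical
  intro F hF
  let P : MvPolynomial (L →ₐ[K] Ω) Ω := ∏ σ, X σ
  have hP : P ≠ 0 := Finset.prod_ne_zero_iff.2 fun σ _ => X_ne_zero σ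
  obtain ⟨G, hG⟩ := exists_grid_pow (K := K) (L := L) (Ω := Ω) hN (F * P).totalDegree
  obtain ⟨t₀, ht₀, hGQ⟩ := hQ G
  obtain ⟨g, hgG, hg⟩ := hG t₀ ht₀ (F * P) (mul_ne_zero hF hP) le_rfl
  rw [map_mul] at hg
  refine ⟨t₀ * g ^ N, hGQ g hgG ?_, left_ne_zero_of_mul hg⟩
  rintro rfl
  apply right_ne_zero_of_mul hg
  simp only [P, map_prod, eval_X]
  have hne : Nonempty (L →ₐ[K] Ω) := by
    rw [← Fintype.card_pos_iff, AlgHom.card]
    exact Module.finrank_pos
  obtain ⟨σ⟩ := hne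
  refine Finset.prod_eq_zero (Finset.mem_univ σ) ?_
  rw [zero_pow hN.ne', mul_zero, map_zero]

/-- many elements for which all `t - θ` are `N`-th powers -/
theorem exists_scaling_pow {L : Type*} [Field L] [Infinite L] {N : ℕ}
    (hL : Pool.Agent.Helper51.KL.FinIdx L N) (Θ G : Finset L) :
    ∃ t₀ : L, t₀ ≠ 0 ∧ ∀ g ∈ G, g ≠ 0 → ∀ θ ∈ Θ, ∃ w : L, w ^ N = t₀ * g ^ N - θ := by
  classical
  obtain ⟨s, hs0, ⟨z, hz0, hz⟩, hs⟩ := Pool.Agent.Helper51.KL.exists_small hL
    (Finset.image₂ (fun g θ => -θ / g ^ N) G Θ) 1 one_ne_zero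
  rw [one_mul] at hz
  refine ⟨s⁻¹, inv_ne_zero hs0, fun g hg hg0 θ hθ => ?_⟩
  obtain ⟨y, -, hy⟩ := hs (-θ / g ^ N) (Finset.mem_image₂.2 ⟨g, hg, θ, hθ, rfl⟩)
  refine ⟨g / z * y, ?_⟩
  rw [mul_pow, ← hy, div_pow, ← hz]
  have hgN : g ^ N ≠ 0 := pow_ne_zero _ hg0
  field_simp
  ring

end Pool.Agent.Helper45.HJ
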