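import Pool.Agent.Helper45.HJ.Ring

set_option autoImplicit false

/-!
Invertible ideals of `K[X][Y]/(Y ^ N - f)` attached to points with values in an extension field.
-/

namespace Pool.Agent.Helper45.HJ

open Polynomial

section abstract

variable {R : Type*} [CommRing R]

theorem span_mul_span {M z S h α β γ : R} (h1 : z * S = M * h)
    (h2 : α * M + β * S + γ * z = 1) :
    Ideal.span {M, z} * Ideal.span {M, S} = Ideal.span {M} := by
  have hM1 : M ∈ Ideal.span ({M, z} : Set R) := Ideal.subset_span (by simp)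
  have hz1 : z ∈ Ideal.span ({M, z} : Set R) := Ideal.subset_span (by simp)
  have hM2 : M ∈ Ideal.span ({M, S} : Set R) := Ideal.subset_span (by simp)
  have hS2 : S ∈ Ideal.span ({M, S} : Set R) := Ideal.subset_span (by simp)
  apply le_antisymm
  · rw [Ideal.mul_le]
    intro r hr s hs
    rw [Ideal.mem_span_pair] at hr hs
    obtain ⟨a, b, rfl⟩ := hr
    obtain ⟨c, d, rfl⟩ := hs
    rw [Ideal.mem_span_singleton]
    exact ⟨a * (c * M + d * S) + b * z * c + b * d * h, by linear_combination b * d * h1⟩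
  · rw [Ideal.span_singleton_le_iff_mem]
    have h3 : α * (M * M) + β * (M * S) + γ * (z * M) = M := by linear_combination M * h2
    refine (congrArg (fun m => m ∈ Ideal.span ({M, z} : Set R) * Ideal.span {M, S}) h3).mp ?_
    refine Ideal.add_mem _ (Ideal.add_mem _ ?_ ?_) ?_
    · exact Ideal.mul_mem_left _ _ (Ideal.mul_mem_mul hM1 hM2)
    · exact Ideal.mul_mem_left _ _ (Ideal.mul_mem_mul hM1 hS2)
    · exact Ideal.mul_mem_left _ _ (Ideal.mul_mem_mul hz1 hM2)

variable [IsDomain R]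

open scoped nonZeroDivisors in
/-- an invertible ideal as a unit -/
noncomputable def unitOf (P Q : Ideal R) (M : R) (hM : M ≠ 0) (h : P * Q = Ideal.span {M}) :
    (FractionalIdeal R⁰ (FractionRing R))ˣ :=
  Units.mkOfMulEqOne (P : FractionalIdeal R⁰ (FractionRing R))
    (Q * (Ideal.span {M} : FractionalIdeal R⁰ (FractionRing R))⁻¹) <| by
    rw [← mul_assoc, ← FractionalIdeal.coeIdeal_mul, h,
      FractionalIdeal.coe_ideal_span_singleton_mul_inv (FractionRing R) hM]

open scoped nonZeroDivisors in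
theorem unitOf_coe (P Q : Ideal R) (M : R) (hM : M ≠ 0) (h : P * Q = Ideal.span {M}) :
    (unitOf P Q M hM h : FractionalIdeal R⁰ (FractionRing R)) = P := rfl

/-- the class of an invertible ideal -/
noncomputable def clOf (P Q : Ideal R) (M : R) (hM : M ≠ 0) (h : P * Q = Ideal.span {M}) :
    ClassGroup R := ClassGroup.mk (FractionRing R) (unitOf P Q M hM h)

theorem exists_of_clOf_eq (P Q P' Q' : Ideal R) (M M' : R) (hM : M ≠ 0) (hM' : M' ≠ 0)
    (h : P * Q = Ideal.span {M}) (h' : P' * Q' = Ideal.span {M'})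
    (hcl : clOf P Q M hM h = clOf P' Q' M' hM' h') :
    ∃ x y : R, x ≠ 0 ∧ y ≠ 0 ∧ Ideal.span {x} * P = Ideal.span {y} * P' :=
  (ClassGroup.mk_eq_mk_of_coe_ideal (unitOf_coe P Q M hM h) (unitOf_coe P' Q' M' hM' h')).1 hcl

theorem of_mul_eq (P Q P' Q' : Ideal R) (M M' x y : R) (hx : x ≠ 0) (hy : y ≠ 0)
    (h : P * Q = Ideal.span {M}) (h' : P' * Q' = Ideal.span {M'})
    (hxy : Ideal.span {x} * P = Ideal.span {y} * P') :
    ∃ w w' : R, w ∈ P ∧ w ∈ Q' ∧ w' ∈ Q ∧ w' ∈ P' ∧ w * w' = M * M' := by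
  have e1 : Ideal.span {x} * (P * Q') = Ideal.span {y * M'} := by
    rw [← mul_assoc, hxy, mul_assoc, h', Ideal.span_singleton_mul_span_singleton]
  have e2 : Ideal.span {y} * (P' * Q) = Ideal.span {x * M} := by
    rw [← mul_assoc, ← hxy, mul_assoc, h, Ideal.span_singleton_mul_span_singleton]
  have m1 : y * M' ∈ Ideal.span {x} * (P * Q') := by
    rw [e1]
    exact Ideal.mem_span_singleton_self _
  have m2 : x * M ∈ Ideal.span {y} * (P' * Q) := by
    rw [e2]
    exact Ideal.mem_span_singleton_self _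
  obtain ⟨w, hw, hw1⟩ := Ideal.mem_span_singleton_mul.1 m1
  obtain ⟨w', hw', hw1'⟩ := Ideal.mem_span_singleton_mul.1 m2
  refine ⟨w, w', ?_, ?_, ?_, ?_, ?_⟩
  · exact (Ideal.mul_le_left : P * Q' ≤ P) hw
  · exact (Ideal.mul_le_right : P * Q' ≤ Q') hw
  · exact (Ideal.mul_le_right : P' * Q ≤ Q) hw'
  · exact (Ideal.mul_le_left : P' * Q ≤ P') hw'
  · apply mul_left_cancel₀ (mul_ne_zero hx hy)
    calc x * y * (w * w') = (x * w) * (y * w') := by ring
      _ = (y * M') * (x * M) := by rw [hw1, hw1']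
      _ = x * y * (M * M') := by ring

end abstract

section concrete

variable {K : Type*} [Field K] {N : ℕ} (f M v : K[X])

/-- `v - Y` -/
noncomputable def zz (N : ℕ) (f v : K[X]) : Rg N f := algebraMap K[X] (Rg N f) v - yy N f

/-- the cofactor -/
noncomputable def SS (N : ℕ) (f v : K[X]) : Rg N f :=
  ∑ i ∈ Finset.range N, (algebraMap K[X] (Rg N f) v) ^ i * yy N f ^ (N - 1 - i)

theorem SS_mul (N : ℕ) (f v : K[X]) :
    SS N f v * zz N f v = algebraMap K[X] (Rg N f) (v ^ N - f) := by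
  rw [SS, zz, geom_sum₂_mul, yy_pow, map_sub, map_pow]

/-- the ideal of a point -/
noncomputable def PP (N : ℕ) (f M v : K[X]) : Ideal (Rg N f) :=
  Ideal.span {algebraMap K[X] (Rg N f) M, zz N f v}

/-- the complementary ideal -/
noncomputable def QQ (N : ℕ) (f M v : K[X]) : Ideal (Rg N f) :=
  Ideal.span {algebraMap K[X] (Rg N f) M, SS N f v}

/-- the data of a point: `M` irreducible, `v ^ N = f` modulo `M` but not modulo `M ^ 2` -/
structure IsPt (N : ℕ) (f M v : K[X]) : Prop where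
  irr : Irreducible M
  dvd : M ∣ v ^ N - f
  ndvd : ¬ M ^ 2 ∣ v ^ N - f
  ndvdv : ¬ M ∣ v

variable {f M v}

theorem SS_congr (N : ℕ) (f v : K[X]) : ∃ e : Rg N f,
    SS N f v = algebraMap K[X] (Rg N f) (N * v ^ (N - 1)) + e * zz N f v := by
  have h1 : zz N f v ∣ algebraMap K[X] (Rg N f) (N * v ^ (N - 1)) - SS N f v := by
    have h2 : algebraMap K[X] (Rg N f) (N * v ^ (N - 1)) =
        ∑ i ∈ Finset.range N, (algebraMap K[X] (Rg N f) v) ^ i *
          (algebraMap K[X] (Rg N f) v) ^ (N - 1 - i) := by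
      rw [Finset.sum_congr rfl (g := fun _ => (algebraMap K[X] (Rg N f) v) ^ (N - 1)),
        Finset.sum_const, Finset.card_range, nsmul_eq_mul, map_mul, map_pow, map_natCast]
      intro i hi
      rw [← pow_add]
      congr 1
      have := Finset.mem_range.1 hi
      omega
    rw [h2, SS, ← Finset.sum_sub_distrib]
    refine Finset.dvd_sum fun i _ => ?_
    rw [← mul_sub]
    exact Dvd.dvd.mul_left (sub_dvd_pow_sub_pow _ _ _) _
  obtain ⟨e, he⟩ := h1
  exact ⟨-e, by linear_combination -he⟩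

theorem PP_mul_QQ (hNK : (N : K) ≠ 0) (h : IsPt N f M v) :
    PP N f M v * QQ N f M v = Ideal.span {algebraMap K[X] (Rg N f) M} := by
  obtain ⟨g, hg⟩ := h.dvd
  obtain ⟨e, he⟩ := SS_congr N f v
  have hcop : IsCoprime M (N * v ^ (N - 1)) := by
    refine IsCoprime.mul_right ?_ ((h.irr.coprime_iff_not_dvd.2 h.ndvdv).pow_right)
    refine ⟨0, C ((N : K)⁻¹), ?_⟩
    rw [zero_mul, zero_add, ← C_eq_natCast, ← C_mul, inv_mul_cancel₀ hNK, C_1]
  obtain ⟨a, b, hab⟩ := hcop
  have hab' := congrArg (algebraMap K[X] (Rg N f)) hab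
  rw [map_add, map_mul, map_mul, map_one] at hab'
  refine span_mul_span (h := algebraMap K[X] (Rg N f) g)
    (α := algebraMap K[X] (Rg N f) a) (β := algebraMap K[X] (Rg N f) b)
    (γ := - algebraMap K[X] (Rg N f) b * e) ?_ ?_
  · rw [mul_comm, SS_mul, hg, map_mul]
  · rw [he]
    linear_combination hab'

/-- `M` divides the norm of an element of the ideal of the point -/
theorem dvd_norm_of_mem_PP (hN : N ≠ 0) (h : IsPt N f M v) {w : Rg N f} (hw : w ∈ PP N f M v) :
    M ∣ Algebra.norm K[X] w := by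
  let φ : Rg N f →+* K[X] ⧸ Ideal.span {M} := AdjoinRoot.lift (Ideal.Quotient.mk _)
    (Ideal.Quotient.mk _ v) (by
      rw [eval₂_sub, eval₂_X_pow, eval₂_C, ← map_pow, ← map_sub, Ideal.Quotient.eq_zero_iff_mem,
        Ideal.mem_span_singleton]
      exact h.dvd)
  have hφ : ∀ p : K[X], φ (algebraMap K[X] (Rg N f) p) = Ideal.Quotient.mk _ p :=
    fun p => AdjoinRoot.lift_of _
  have hφy : φ (yy N f) = Ideal.Quotient.mk _ v := AdjoinRoot.lift_root _
  have h0 : φ w = 0 := by
    obtain ⟨a, b, rfl⟩ := Ideal.mem_span_pair.1 hw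
    rw [map_add, map_mul, map_mul, zz, map_sub, hφ, hφ, hφy, sub_self, mul_zero, add_zero,
      Ideal.Quotient.eq_zero_iff_mem.2 (Ideal.mem_span_singleton_self M), mul_zero]
  obtain ⟨w', hw'⟩ := dvd_norm hN f w
  have h1 := congrArg φ hw'
  rw [map_mul, h0, zero_mul, hφ, Ideal.Quotient.eq_zero_iff_mem, Ideal.mem_span_singleton] at h1
  exact h1

theorem exists_mul_zz (h : IsPt N f M v) {w : Rg N f} (hw : w ∈ QQ N f M v) :
    ∃ w' : Rg N f, w * zz N f v = algebraMap K[X] (Rg N f) M * w' := by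
  obtain ⟨g, hg⟩ := h.dvd
  obtain ⟨a, b, rfl⟩ := Ideal.mem_span_pair.1 hw
  refine ⟨a * zz N f v + b * algebraMap K[X] (Rg N f) g, ?_⟩
  have h1 := SS_mul N f v
  rw [hg, map_mul] at h1
  linear_combination b * h1

/-- `M ^ (N - 1)` divides the norm of an element of the complementary ideal -/
theorem pow_dvd_norm_of_mem_QQ (hN : 0 < N) (h : IsPt N f M v) {w : Rg N f}
    (hw : w ∈ QQ N f M v) : M ^ (N - 1) ∣ Algebra.norm K[X] w := by
  obtain ⟨w', hw'⟩ := exists_mul_zz h hw
  obtain ⟨g, hg⟩ := h.dvd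
  have h1 := congrArg (Algebra.norm K[X]) hw'
  rw [map_mul, map_mul, zz, norm_sub_yy hN.ne', hg,
    Algebra.norm_algebraMap_of_basis (bs hN.ne' f), Fintype.card_fin] at h1
  have h2 : Algebra.norm K[X] w * g = M ^ (N - 1) * Algebra.norm K[X] w' := by
    apply mul_left_cancel₀ h.irr.ne_zero
    have h3 : M ^ N = M * M ^ (N - 1) := by
      rw [← pow_succ']
      congr 1
      omega
    rw [h3] at h1
    linear_combination h1
  have h4 : ¬ M ∣ g := by
    intro h5
    obtain ⟨g', rfl⟩ := h5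
    exact h.ndvd ⟨g', by rw [hg]; ring⟩
  exact h.irr.prime.pow_dvd_of_dvd_mul_right _ h4 ⟨_, h2⟩

/-- congruences between the coefficients of an element of the complementary ideal -/
theorem dvd_coeff_of_mem_QQ (hN : N ≠ 0) (h : IsPt N f M v) {w : Rg N f}
    (hw : w ∈ QQ N f M v) (k : ℕ) (hk : k + 1 < N) :
    M ∣ v * (bs hN f).repr w ⟨k + 1, hk⟩ - (bs hN f).repr w ⟨k, by omega⟩ := by
  obtain ⟨w', hw'⟩ := exists_mul_zz h hw
  have h1 := congrArg (fun u : Rg N f => (bs hN f).repr u ⟨k + 1, hk⟩) hw'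
  beta_reduce at h1
  rw [zz, mul_comm, sub_mul, ← Algebra.smul_def, ← Algebra.smul_def, map_sub, Finsupp.sub_apply,
    map_smul, map_smul, Finsupp.smul_apply, Finsupp.smul_apply, smul_eq_mul, smul_eq_mul,
    repr_yy_mul] at h1
  exact ⟨_, h1⟩

end concrete

end Pool.Agent.Helper45.HJ
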