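import Pool.Agent.Helper45.HJ.Space
import Pool.Agent.Helper45.HJ.Degree

set_option autoImplicit false

/-!
The space of functions attached to a point, of dimension at most `n`, and the norms of its elements.
-/

namespace Pool.Agent.Helper45.HJ

open Polynomial

variable {K : Type*} [Field K] {N : ℕ}

/-- the bounds for the degrees -/
def bd (N n i : ℕ) : ℕ := if i = 0 then n + 1 else if i = N - 1 then n - 1 else n

/-- the space attached to a point -/
noncomputable def UU (hN : N ≠ 0) (f M v : K[X]) (n : ℕ) : Submodule K (Rg N f) where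
  carrier := {w | (∀ i : Fin N, (bs hN f).repr w i ∈ degreeLT K (bd N n i)) ∧
    ∀ k, ∀ hk : k + 1 < N, M ∣ v * (bs hN f).repr w ⟨k + 1, hk⟩ - (bs hN f).repr w ⟨k, by omega⟩}
  add_mem' := by
    rintro w w' ⟨h1, h2⟩ ⟨h1', h2'⟩
    constructor
    · intro i
      rw [map_add, Finsupp.add_apply]
      exact Submodule.add_mem _ (h1 i) (h1' i)
    · intro k hk
      rw [map_add, Finsupp.add_apply, Finsupp.add_apply]
      have h3 := dvd_add (h2 k hk) (h2' k hk)
      refine (congrArg (fun p => M ∣ p) ?_).mp h3
      ring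
  zero_mem' := by
    constructor
    · intro i
      rw [map_zero, Finsupp.zero_apply]
      exact Submodule.zero_mem _
    · intro k hk
      rw [map_zero, Finsupp.zero_apply, Finsupp.zero_apply, mul_zero, sub_zero]
      exact dvd_zero _
  smul_mem' := by
    rintro c w ⟨h1, h2⟩
    have h0 : ∀ i, (bs hN f).repr (c • w) i = c • (bs hN f).repr w i := by
      intro i
      rw [← algebraMap_smul K[X] c w, map_smul, Finsupp.smul_apply, algebraMap_smul]
    constructor
    · intro i
      rw [h0]
      exact Submodule.smul_mem _ c (h1 i)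
    · intro k hk
      rw [h0, h0, mul_smul_comm, ← smul_sub, smul_eq_C_mul]
      exact Dvd.dvd.mul_left (h2 k hk) _

theorem mem_UU_iff (hN : N ≠ 0) (f M v : K[X]) (n : ℕ) (w : Rg N f) : w ∈ UU hN f M v n ↔
    (∀ i : Fin N, (bs hN f).repr w i ∈ degreeLT K (bd N n i)) ∧
    ∀ k, ∀ hk : k + 1 < N, M ∣ v * (bs hN f).repr w ⟨k + 1, hk⟩ -
      (bs hN f).repr w ⟨k, by omega⟩ := Iff.rfl

/-- the coefficients as linear functions over `K` -/
noncomputable def cf (hN : N ≠ 0) (f : K[X]) (i : Fin N) : Rg N f →ₗ[K] K[X] where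
  toFun w := (bs hN f).repr w i
  map_add' w w' := by rw [map_add, Finsupp.add_apply]
  map_smul' c w := by
    rw [← algebraMap_smul K[X] c w, map_smul, Finsupp.smul_apply, algebraMap_smul]
    rfl

instance finDimDegreeLT (m : ℕ) : FiniteDimensional K (degreeLT K m) :=
  LinearEquiv.finiteDimensional (degreeLTEquiv K m).symm

theorem finrank_degreeLT' (m : ℕ) : Module.finrank K (degreeLT K m) = m := by
  rw [(degreeLTEquiv K m).finrank_eq]
  simp

theorem finrank_UU_le (hN : 2 ≤ N) (f M v : K[X]) (n : ℕ) (hn : 1 ≤ n) (hM : M.natDegree = n) :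
    FiniteDimensional K (UU (by omega : N ≠ 0) f M v n) ∧
    Module.finrank K (UU (by omega : N ≠ 0) f M v n) ≤ n := by
  have hN0 : N ≠ 0 := by omega
  have hM0 : M ≠ 0 := by
    rintro rfl
    rw [natDegree_zero] at hM
    omega
  let i₀ : Fin N := ⟨0, by omega⟩
  let i₁ : Fin N := ⟨N - 1, by omega⟩
  let g : UU hN0 f M v n →ₗ[K] K × degreeLT K (n - 1) :=
    LinearMap.prod ((lcoeff K n) ∘ₗ (cf hN0 f i₀) ∘ₗ (UU hN0 f M v n).subtype)
      (LinearMap.codRestrict (degreeLT K (n - 1)) ((cf hN0 f i₁) ∘ₗ (UU hN0 f M v n).subtype)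
        (fun w => by
          have h1 := w.2.1 i₁
          have h2 : bd N n (N - 1) = n - 1 := by
            unfold bd
            rw [if_neg (by omega), if_pos rfl]
          rw [show ((i₁ : Fin N) : ℕ) = N - 1 from rfl, h2] at h1
          exact h1))
  have hg : Function.Injective g := by
    rw [← LinearMap.ker_eq_bot, LinearMap.ker_eq_bot']
    rintro ⟨w, hw⟩ hgw
    have e1 : ((bs hN0 f).repr w i₀).coeff n = 0 := congrArg Prod.fst hgw
    have e2 : (bs hN0 f).repr w i₁ = 0 := 
      congrArg (fun p : K × degreeLT K (n - 1) => ((p.2 : degreeLT K (n - 1)) : K[X])) hgw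
    have key : ∀ j, ∀ hj : j < N, (bs hN0 f).repr w ⟨N - 1 - j, by omega⟩ = 0 := by
      intro j
      induction j with
      | zero =>
        intro hj
        exact e2
      | succ j ih =>
        intro hj
        have h1 := ih (by omega)
        have h2 := hw.2 (N - 1 - (j + 1)) (by omega)
        have h3 : (⟨N - 1 - (j + 1) + 1, by omega⟩ : Fin N) = ⟨N - 1 - j, by omega⟩ := by
          rw [Fin.ext_iff]
          change N - 1 - (j + 1) + 1 = N - 1 - j
          omega
        rw [h3, h1, mul_zero, zero_sub, dvd_neg] at h2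
        refine eq_zero_of_dvd_of_degree_lt h2 ?_
        rw [degree_eq_natDegree hM0, hM]
        have h4 := hw.1 ⟨N - 1 - (j + 1), by omega⟩
        rw [mem_degreeLT] at h4
        by_cases h5 : N - 1 - (j + 1) = 0
        · have h6 : (⟨N - 1 - (j + 1), by omega⟩ : Fin N) = i₀ := Fin.ext h5
          rw [h6] at h4 ⊢
          have h7 : bd N n (i₀ : ℕ) = n + 1 := by
            unfold bd
            rw [if_pos rfl]
          rw [h7] at h4
          by_contra hcon
          rw [not_lt] at hcon
          have h8 : ((bs hN0 f).repr w i₀).natDegree = n := by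
            have h9 : (bs hN0 f).repr w i₀ ≠ 0 := by
              intro h0
              rw [h0, degree_zero] at hcon
              exact absurd hcon (by simp)
            rw [degree_eq_natDegree h9] at h4 hcon
            have h10 : ((bs hN0 f).repr w i₀).natDegree < n + 1 := by exact_mod_cast h4
            have h11 : n ≤ ((bs hN0 f).repr w i₀).natDegree := by exact_mod_cast hcon
            omega
          have h12 : ((bs hN0 f).repr w i₀).leadingCoeff = 0 := by
            rw [leadingCoeff, h8]
            exact e1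
          rw [leadingCoeff_eq_zero] at h12
          rw [h12, degree_zero] at hcon
          exact absurd hcon (by simp)
        · refine lt_of_lt_of_le h4 ?_
          have h7 : bd N n ((⟨N - 1 - (j + 1), by omega⟩ : Fin N) : ℕ) ≤ n := by
            unfold bd
            rw [if_neg h5]
            split_ifs <;> omega
          exact_mod_cast h7
    have hw0 : w = 0 := by
      apply (bs hN0 f).repr.injective
      rw [map_zero]
      refine Finsupp.ext fun i => ?_
      have h1 := key (N - 1 - i) (by omega)
      have h2 : (⟨N - 1 - (N - 1 - (i : ℕ)), by omega⟩ : Fin N) = i := by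
        rw [Fin.ext_iff]
        change N - 1 - (N - 1 - (i : ℕ)) = i
        have := i.2
        omega
      rw [h2] at h1
      rw [h1, Finsupp.zero_apply]
    exact Subtype.ext hw0
  have hfd : FiniteDimensional K (UU hN0 f M v n) := Module.Finite.of_injective g hg
  refine ⟨hfd, ?_⟩
  have h1 := LinearMap.finrank_le_finrank_of_injective hg
  rw [Module.finrank_prod, Module.finrank_self, finrank_degreeLT'] at h1
  omega

theorem mem_UU_of_mem_QQ (hN : 2 ≤ N) {f : K[X]} (hf : f ≠ 0) (hinf : OnePlace N f)
    (hgen : N < (N - 1) * f.natDegree) {M v : K[X]} (h : IsPt N f M v) (n : ℕ) {w : Rg N f}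
    (hw : w ∈ QQ N f M v) (hd : (Algebra.norm K[X] w).natDegree ≤ N * n) :
    w ∈ UU (by omega : N ≠ 0) f M v n := by
  have hN0 : N ≠ 0 := by omega
  have hm : 1 ≤ f.natDegree := by
    by_contra h0
    have h1 : f.natDegree = 0 := by omega
    rw [h1, mul_zero] at hgen
    omega
  rw [mem_UU_iff]
  refine ⟨fun i => ?_, fun k hk => dvd_coeff_of_mem_QQ hN0 h hw k hk⟩
  rw [mem_degreeLT]
  by_cases h0 : (bs hN0 f).repr w i = 0
  · rw [h0, degree_zero]
    exact WithBot.bot_lt_coe _
  · have h1 := weight_le (by omega) hf hinf w (N * n) hd i h0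
    rw [degree_eq_natDegree h0]
    have h2 : ((bs hN0 f).repr w i).natDegree < bd N n i := by
      set e := ((bs hN0 f).repr w i).natDegree with he
      have h1' : (i : ℕ) * f.natDegree + N * e ≤ N * n := h1
      unfold bd
      by_cases hi0 : (i : ℕ) = 0
      · rw [if_pos hi0]
        rw [hi0, zero_mul, zero_add] at h1'
        have h3 : e ≤ n := Nat.le_of_mul_le_mul_left h1' (by omega)
        omega
      · rw [if_neg hi0]
        by_cases hi1 : (i : ℕ) = N - 1
        · rw [if_pos hi1]
          rw [hi1] at h1'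
          have h3 : N * (e + 1) < N * n := by
            rw [mul_add, mul_one]
            omega
          have h4 : e + 1 < n := Nat.lt_of_mul_lt_mul_left h3
          omega
        · rw [if_neg hi1]
          have h5 : 1 ≤ (i : ℕ) * f.natDegree := Nat.mul_pos (Nat.pos_of_ne_zero hi0) hm
          have h3 : N * e < N * n := by omega
          exact Nat.lt_of_mul_lt_mul_left h3
    exact_mod_cast h2

/-- the norms of complementary elements -/
theorem norm_eq (hN : 0 < N) {f M v M' v' : K[X]} (h : IsPt N f M v)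
    (h' : IsPt N f M' v') (hcop : IsCoprime M M') {w w' : Rg N f} (h1 : w ∈ PP N f M v)
    (h2 : w ∈ QQ N f M' v') (h3 : w' ∈ QQ N f M v) (h4 : w' ∈ PP N f M' v')
    (hww : w * w' = algebraMap K[X] (Rg N f) M * algebraMap K[X] (Rg N f) M') :
    ∃ c : K, c ≠ 0 ∧ Algebra.norm K[X] w = M' ^ (N - 1) * (C c * M) := by
  have d1 := dvd_norm_of_mem_PP hN.ne' h h1
  have d2 := pow_dvd_norm_of_mem_QQ hN h' h2
  have d3 := pow_dvd_norm_of_mem_QQ hN h h3
  have d4 := dvd_norm_of_mem_PP hN.ne' h' h4
  obtain ⟨a, ha⟩ := (hcop.pow_right (n := N - 1)).mul_dvd d1 d2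
  obtain ⟨a', ha'⟩ := (hcop.pow_left (m := N - 1)).mul_dvd d3 d4
  have e1 := congrArg (Algebra.norm K[X]) hww
  rw [map_mul, map_mul, Algebra.norm_algebraMap_of_basis (bs hN.ne' f),
    Algebra.norm_algebraMap_of_basis (bs hN.ne' f), Fintype.card_fin, ha, ha'] at e1
  have hM : M ^ N = M * M ^ (N - 1) := by
    rw [← pow_succ']
    congr 1
    omega
  have hM' : M' ^ N = M' * M' ^ (N - 1) := by
    rw [← pow_succ']
    congr 1
    omega
  have e2 : a * a' = 1 := by
    apply mul_left_cancel₀ (mul_ne_zero (pow_ne_zero N h.irr.ne_zero)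
      (pow_ne_zero N h'.irr.ne_zero))
    rw [hM, hM'] at e1 ⊢
    linear_combination e1
  obtain ⟨c, hc, hca⟩ := isUnit_iff.1 (IsUnit.of_mul_eq_one _ e2)
  refine ⟨c, hc.ne_zero, ?_⟩
  rw [ha, ← hca]
  ring

end Pool.Agent.Helper45.HJ
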