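import Mathlib

set_option autoImplicit false

/-!
The ring `A[Y]/(Y ^ N - f)`: multiplication matrices and norms.
-/

namespace Pool.Agent.Helper45.HJ

open Polynomial

variable {A : Type*} [CommRing A]

/-- the ring `A[Y]/(Y ^ N - f)` -/
abbrev Rg (N : ℕ) (f : A) : Type _ := AdjoinRoot (X ^ N - C f : A[X])

/-- the class of `Y` -/
noncomputable abbrev yy (N : ℕ) (f : A) : Rg N f := AdjoinRoot.root (X ^ N - C f : A[X])

theorem yy_pow (N : ℕ) (f : A) : yy N f ^ N = algebraMap A (Rg N f) f := by
  have h := AdjoinRoot.eval₂_root (X ^ N - C f : A[X])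
  rw [eval₂_sub, eval₂_X_pow, eval₂_C, sub_eq_zero] at h
  exact h

section basis

variable [Nontrivial A] {N : ℕ} (hN : N ≠ 0) (f : A)

/-- the power basis -/
noncomputable def bs : Module.Basis (Fin N) A (Rg N f) :=
  (AdjoinRoot.powerBasis' (monic_X_pow_sub_C f hN)).basis.reindex
    (finCongr (natDegree_X_pow_sub_C (n := N) (r := f)))

theorem bs_apply (i : Fin N) : bs hN f i = yy N f ^ (i : ℕ) := by
  rw [bs, Module.Basis.reindex_apply, PowerBasis.basis_eq_pow]
  rfl

/-- the structure constants -/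
def mu (N : ℕ) (f : A) (i j k : ℕ) : A :=
  if i + j = k then 1 else if i + j = k + N then f else 0

theorem repr_yy_pow {e : ℕ} (he : e < N + N) (k : Fin N) :
    (bs hN f).repr (yy N f ^ e) k = if e = k then 1 else if e = k + N then f else 0 := by
  by_cases h : e < N
  · have h1 : yy N f ^ e = bs hN f ⟨e, h⟩ := (bs_apply hN f ⟨e, h⟩).symm
    rw [h1, Module.Basis.repr_self, Finsupp.single_apply]
    have h2 : (e = k) ↔ ((⟨e, h⟩ : Fin N) = k) := by
      rw [Fin.ext_iff]
    by_cases h3 : e = k
    · rw [if_pos (h2.1 h3), if_pos h3]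
    · rw [if_neg (fun h4 => h3 (h2.2 h4)), if_neg h3, if_neg (by omega)]
  · have h5 : e - N < N := by omega
    have h1 : yy N f ^ e = f • bs hN f ⟨e - N, h5⟩ := by
      rw [bs_apply, Algebra.smul_def, ← yy_pow, ← pow_add]
      congr 1
      change e = N + (e - N)
      omega
    rw [h1, map_smul, Finsupp.smul_apply, Module.Basis.repr_self, Finsupp.single_apply]
    by_cases h3 : e = k + N
    · have h4 : (⟨e - N, h5⟩ : Fin N) = k := by
        rw [Fin.ext_iff]
        change e - N = k
        omega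
      rw [if_pos h4, if_neg (by omega), if_pos h3, smul_eq_mul, mul_one]
    · have h4 : ¬ (⟨e - N, h5⟩ : Fin N) = k := by
        rw [Fin.ext_iff]
        change ¬ (e - N = k)
        omega
      rw [if_neg h4, if_neg (by have := k.2; omega), if_neg h3, smul_zero]

theorem leftMulMatrix_apply (w : Rg N f) (k j : Fin N) :
    Algebra.leftMulMatrix (bs hN f) w k j =
      ∑ i : Fin N, (bs hN f).repr w i * mu N f i j k := by
  rw [Algebra.leftMulMatrix_eq_repr_mul]
  conv_lhs => rw [← (bs hN f).sum_repr w]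
  rw [Finset.sum_mul, map_sum, Finsupp.finsetSum_apply]
  refine Finset.sum_congr rfl fun i _ => ?_
  rw [smul_mul_assoc, map_smul, Finsupp.smul_apply, bs_apply, bs_apply, ← pow_add,
    repr_yy_pow hN f (by have := i.2; have := j.2; omega), smul_eq_mul]
  rfl

theorem norm_eq_det (w : Rg N f) :
    Algebra.norm A w = (Matrix.of fun k j : Fin N =>
      ∑ i : Fin N, (bs hN f).repr w i * mu N f i j k).det := by
  rw [Algebra.norm_eq_matrix_det (bs hN f)]
  congr 1
  ext k j
  rw [leftMulMatrix_apply]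
  rfl

theorem repr_yy_mul (w : Rg N f) (k : ℕ) (hk : k + 1 < N) :
    (bs hN f).repr (yy N f * w) ⟨k + 1, hk⟩ = (bs hN f).repr w ⟨k, by omega⟩ := by
  conv_lhs => rw [← (bs hN f).sum_repr w]
  rw [Finset.mul_sum, map_sum, Finsupp.finsetSum_apply, Finset.sum_eq_single ⟨k, by omega⟩]
  · rw [mul_smul_comm, map_smul, Finsupp.smul_apply, bs_apply, ← pow_succ',
      repr_yy_pow hN f (by change k + 1 < N + N; omega), if_pos rfl, smul_eq_mul, mul_one]
  · intro i _ hi
    rw [mul_smul_comm, map_smul, Finsupp.smul_apply, bs_apply, ← pow_succ',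
      repr_yy_pow hN f (by have := i.2; omega)]
    have h1 : (i : ℕ) ≠ k := fun h => hi (Fin.ext h)
    rw [if_neg (by change ¬ ((i : ℕ) + 1 = k + 1); omega), if_neg (by
      have := i.2
      change ¬ ((i : ℕ) + 1 = k + 1 + N)
      omega), smul_zero]
  · intro h
    exact absurd (Finset.mem_univ _) h

include hN in
/-- an element divides its norm -/
theorem dvd_norm (w : Rg N f) : ∃ w' : Rg N f, algebraMap A (Rg N f) (Algebra.norm A w) = w * w' := by
  classical
  set P := (Algebra.leftMulMatrix (bs hN f) w).charpoly with hP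
  have h0 : aeval w P = 0 := by
    apply (injective_iff_map_eq_zero _).1 (Algebra.leftMulMatrix_injective (bs hN f))
    rw [← aeval_algHom_apply, hP, Matrix.aeval_self_charpoly]
  have h1 : P.coeff 0 = (-1) ^ N * Algebra.norm A w := by
    rw [Algebra.norm_eq_matrix_det (bs hN f), Matrix.det_eq_sign_charpoly_coeff, Fintype.card_fin,
      ← mul_assoc, ← mul_pow]
    simp [hP]
  obtain ⟨q, hq⟩ : X ∣ P - C (P.coeff 0) := by
    rw [X_dvd_iff]
    simp
  have h2 : P = X * q + C (P.coeff 0) := by
    rw [← hq]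
    ring
  rw [h2, map_add, map_mul, aeval_X, aeval_C, h1, map_mul, map_pow, map_neg, map_one] at h0
  refine ⟨-(-1) ^ N * aeval w q, ?_⟩
  have h3 : ((-1 : Rg N f) ^ N) * (-1) ^ N = 1 := by
    rw [← mul_pow]
    simp
  linear_combination (-1) ^ N * h0 - (algebraMap A (Rg N f) (Algebra.norm A w)) * h3

include hN in
/-- the norm of `v - Y` -/
theorem norm_sub_yy (v : A) : Algebra.norm A (algebraMap A (Rg N f) v - yy N f) = v ^ N - f := by
  classical
  set pb := AdjoinRoot.powerBasis' (monic_X_pow_sub_C f hN) with hpb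
  have h1 : minpoly A (yy N f) = X ^ N - C f := by
    refine (minpoly.unique' A _ (monic_X_pow_sub_C f hN) ?_ fun q hq => ?_).symm
    · rw [AdjoinRoot.aeval_eq, AdjoinRoot.mk_self]
    · by_cases hq0 : q = 0
      · exact Or.inl hq0
      · right
        rw [AdjoinRoot.aeval_eq]
        exact AdjoinRoot.mk_ne_zero_of_degree_lt (monic_X_pow_sub_C f hN) hq0 hq
  have h2 := charpoly_leftMulMatrix pb
  have h3 : pb.gen = yy N f := rfl
  rw [h3, h1] at h2
  have h4 := Matrix.eval_charpoly (Algebra.leftMulMatrix pb.basis (yy N f)) v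
  rw [h2, eval_sub, eval_pow, eval_X, eval_C] at h4
  rw [Algebra.norm_eq_matrix_det pb.basis, h4]
  congr 1
  rw [map_sub, AlgHom.commutes]
  rfl

end basis

end Pool.Agent.Helper45.HJ
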