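import Pool.Agent.Helper45.HJ.Ideals
import Pool.Agent.Helper51.EC2.Relation

set_option autoImplicit false

/-!
The norm form on a space of dimension at most `n` and the relation between `n + 1` linear functions
of its values.
-/

namespace Pool.Agent.Helper45.HJ

open Polynomial

section forms

variable {K : Type*} [Field K]

/-- `n + 1` forms of the same degree in at most `n` variables satisfy a homogeneous relation -/
theorem exists_homogeneous_relation' {d n N : ℕ} (hdn : d ≤ n) (hN : 0 < N)
    (Q : Fin (n + 1) → MvPolynomial (Fin d) K) (hQ : ∀ i, (Q i).IsHomogeneous N) :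
    ∃ (D : ℕ) (Ψ : MvPolynomial (Fin (n + 1)) K), Ψ ≠ 0 ∧ Ψ.IsHomogeneous D ∧
      MvPolynomial.aeval Q Ψ = 0 := by
  classical
  have hdep : ¬ AlgebraicIndependent K Q := by
    intro h
    have h1 := h.lift_cardinalMk_le_trdeg
    rw [MvPolynomial.trdeg_of_isDomain] at h1
    simp only [Cardinal.mk_fin, Cardinal.lift_natCast] at h1
    have h2 : n + 1 ≤ d := by exact_mod_cast h1
    omega
  rw [AlgebraicIndependent, injective_iff_map_eq_zero] at hdep
  push Not at hdep
  obtain ⟨Φ, hΦ, hΦ0⟩ := hdep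
  obtain ⟨D, hD⟩ : ∃ D, MvPolynomial.homogeneousComponent D Φ ≠ 0 := by
    by_contra hcon
    push Not at hcon
    apply hΦ0
    rw [← MvPolynomial.sum_homogeneousComponent Φ]
    exact Finset.sum_eq_zero fun i _ => hcon i
  refine ⟨D, MvPolynomial.homogeneousComponent D Φ, hD,
    MvPolynomial.homogeneousComponent_isHomogeneous D Φ, ?_⟩
  have h1 : MvPolynomial.aeval Q Φ = ∑ i ∈ Finset.range (Φ.totalDegree + 1),
      MvPolynomial.aeval Q (MvPolynomial.homogeneousComponent i Φ) := by
    conv_lhs => rw [← MvPolynomial.sum_homogeneousComponent Φ]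
    rw [map_sum]
  have hhom : ∀ i, (MvPolynomial.aeval Q (MvPolynomial.homogeneousComponent i Φ)).IsHomogeneous
      (N * i) := fun i => (MvPolynomial.homogeneousComponent_isHomogeneous i Φ).aeval Q hQ
  have hlt : D ∈ Finset.range (Φ.totalDegree + 1) := by
    rw [Finset.mem_range]
    by_contra hlt
    exact hD (MvPolynomial.homogeneousComponent_eq_zero _ _ (by omega))
  have h2 := congrArg (MvPolynomial.homogeneousComponent (N * D)) h1
  rw [hΦ, map_zero, map_sum, Finset.sum_eq_single D] at h2
  · rw [MvPolynomial.homogeneousComponent_eq_self (hhom D)] at h2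
    exact h2.symm
  · intro i _ hi
    rw [MvPolynomial.homogeneousComponent_of_mem (hhom i), if_neg]
    intro h
    exact hi (Nat.eq_of_mul_eq_mul_left hN h).symm
  · intro h
    exact absurd hlt h

/-- apply a linear function to the coefficients of a form -/
theorem exists_form {d N : ℕ} (G : MvPolynomial (Fin d) K[X]) (hG : G.IsHomogeneous N)
    (Λ : K[X] →ₗ[K] K) : ∃ Q : MvPolynomial (Fin d) K, Q.IsHomogeneous N ∧
      ∀ x : Fin d → K, MvPolynomial.eval x Q = Λ (MvPolynomial.eval (fun i => C (x i)) G) := by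
  classical
  refine ⟨∑ s ∈ G.support, MvPolynomial.monomial s (Λ (G.coeff s)), ?_, fun x => ?_⟩
  · refine MvPolynomial.IsHomogeneous.sum _ _ _ fun s hs => ?_
    refine MvPolynomial.isHomogeneous_monomial _ ?_
    by_contra hne
    exact (MvPolynomial.mem_support_iff.1 hs) (hG.coeff_eq_zero hne)
  · rw [map_sum, MvPolynomial.eval_eq, map_sum]
    refine Finset.sum_congr rfl fun s _ => ?_
    have h1 : ∏ i ∈ s.support, C (x i) ^ s i = C (∏ i ∈ s.support, x i ^ s i) := by
      rw [map_prod]
      simp only [map_pow]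
    rw [h1, mul_comm, ← smul_eq_C_mul, map_smul, smul_eq_mul, MvPolynomial.eval_monomial, mul_comm]
    rfl

end forms

section normform

variable {K : Type*} [Field K] {N : ℕ}

/-- the norm form on the span of finitely many elements -/
theorem exists_normForm (hN : N ≠ 0) (f : K[X]) {d : ℕ} (b : Fin d → Rg N f) :
    ∃ G : MvPolynomial (Fin d) K[X], G.IsHomogeneous N ∧
      ∀ x : Fin d → K, MvPolynomial.eval (fun i => C (x i)) G =
        Algebra.norm K[X] (∑ k, x k • b k) := by
  classical
  let A : Matrix (Fin N) (Fin N) (MvPolynomial (Fin d) K[X]) := Matrix.of fun i j =>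
    ∑ k, MvPolynomial.C (Algebra.leftMulMatrix (bs hN f) (b k) i j) * MvPolynomial.X k
  have hA : ∀ i j, (A i j).IsHomogeneous 1 := by
    intro i j
    change (∑ k, MvPolynomial.C (Algebra.leftMulMatrix (bs hN f) (b k) i j) *
      (MvPolynomial.X k : MvPolynomial (Fin d) K[X])).IsHomogeneous 1
    refine MvPolynomial.IsHomogeneous.sum _ _ _ fun k _ => ?_
    exact MvPolynomial.isHomogeneous_C_mul_X
            (Algebra.leftMulMatrix (bs hN f) (b k) i j) k
  refine ⟨A.det, ?_, fun x => ?_⟩
  · rw [Matrix.det_apply]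
    refine MvPolynomial.IsHomogeneous.sum _ _ _ fun σ _ => ?_
    have h1 : (∏ i, A (σ i) i).IsHomogeneous N := by
      have h2 := MvPolynomial.IsHomogeneous.prod Finset.univ (fun i => A (σ i) i) (fun _ => 1)
        (fun i _ => hA _ _)
      simpa using h2
    rcases Int.units_eq_one_or (Equiv.Perm.sign σ) with h | h
    · rw [h, one_smul]
      exact h1
    · rw [h, Units.neg_smul, one_smul]
      exact h1.neg
  · rw [Algebra.norm_eq_matrix_det (bs hN f), RingHom.map_det]
    congr 1
    refine Matrix.ext fun i j => ?_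
    have h0 : A i j = ∑ k, MvPolynomial.C (Algebra.leftMulMatrix (bs hN f) (b k) i j) *
      (MvPolynomial.X k : MvPolynomial (Fin d) K[X]) := rfl
    rw [RingHom.mapMatrix_apply, Matrix.map_apply, h0, map_sum, map_sum, Matrix.sum_apply]
    refine Finset.sum_congr rfl fun k _ => ?_
    rw [map_mul, MvPolynomial.eval_C, MvPolynomial.eval_X]
    have h1 : x k • b k = algebraMap K[X] (Rg N f) (C (x k)) * b k := by
      rw [← Algebra.smul_def]
      exact (algebraMap_smul K[X] (x k) (b k)).symm
    rw [h1, map_mul, AlgHom.commutes, ← Algebra.smul_def, Matrix.smul_apply, smul_eq_mul, mul_comm]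

/-- the relation for the norm form on a space of dimension at most `n` -/
theorem exists_norm_relation (hN : 0 < N) (f : K[X]) (n : ℕ) (U : Submodule K (Rg N f))
    [FiniteDimensional K U] (hU : Module.finrank K U ≤ n) (Λ : K[X] →ₗ[K] K[X]) :
    ∃ (D : ℕ) (Ψ : MvPolynomial (Fin (n + 1)) K), Ψ ≠ 0 ∧ Ψ.IsHomogeneous D ∧
      ∀ u ∈ U, ∀ c : K, c ≠ 0 → ∀ M : K[X], Λ (Algebra.norm K[X] u) = C c * M →
        MvPolynomial.eval (fun i : Fin (n + 1) => M.coeff i) Ψ = 0 := by
  classical
  let b : Module.Basis (Fin (Module.finrank K U)) K U := Module.finBasis K U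
  obtain ⟨G, hG, hGe⟩ := exists_normForm hN.ne' f fun k => (b k : Rg N f)
  have hQ : ∀ i : Fin (n + 1), ∃ Q : MvPolynomial (Fin (Module.finrank K U)) K,
      Q.IsHomogeneous N ∧ ∀ x : Fin (Module.finrank K U) → K, MvPolynomial.eval x Q =
        ((lcoeff K (i : ℕ)) ∘ₗ Λ) (MvPolynomial.eval (fun i => C (x i)) G) := fun i =>
    exists_form G hG ((lcoeff K (i : ℕ)) ∘ₗ Λ)
  choose Q hQh hQe using hQ
  obtain ⟨D, Ψ, hΨ0, hΨD, hΨ⟩ := exists_homogeneous_relation' hU hN Q hQh
  refine ⟨D, Ψ, hΨ0, hΨD, fun u hu c hc M hM => ?_⟩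
  let x : Fin (Module.finrank K U) → K := fun j => b.repr ⟨u, hu⟩ j
  have hx : u = ∑ j, x j • (b j : Rg N f) := by
    have h1 := congrArg Subtype.val (b.sum_repr ⟨u, hu⟩)
    refine h1.symm.trans ?_
    push_cast
    rfl
  have h3 : MvPolynomial.eval (fun i => MvPolynomial.eval x (Q i)) Ψ = 0 := by
    have h4 : MvPolynomial.eval x (MvPolynomial.aeval Q Ψ) =
        MvPolynomial.eval (fun i => MvPolynomial.eval x (Q i)) Ψ := by
      rw [← MvPolynomial.coe_aeval_eq_eval, ← MvPolynomial.coe_aeval_eq_eval]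
      simp only [RingHom.coe_coe]
      rw [← AlgHom.comp_apply, MvPolynomial.comp_aeval]
    rw [← h4, hΨ, map_zero]
  have h5 : (fun i => MvPolynomial.eval x (Q i)) = fun i : Fin (n + 1) => c * M.coeff i := by
    refine _root_.funext fun i => ?_
    rw [hQe, hGe, ← hx, LinearMap.comp_apply, hM, lcoeff_apply, coeff_C_mul]
  rw [h5, Pool.Agent.Helper51.EC2.eval_smul_of_isHomogeneous hΨD] at h3
  exact (mul_eq_zero.1 h3).resolve_left (pow_ne_zero _ hc)

end normform

end Pool.Agent.Helper45.HJ
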